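import Mathlib

namespace Pool.Agent.H.MP_c7a479_co
open Fintype

def OA (n : ℕ) : Prop := ∃ (α I : Type) (_ : Fintype α) (_ : Fintype I) (g : I → Fin 4 → α),
  card α = n ∧ card I = n ^ 2 ∧ ∀ i j, i ≠ j → ∀ a b, ∃ r, g r i = a ∧ g r j = b

def ent (n L M x y i : ℕ) : ℕ :=
  if i = 0 then x else if i = 1 then y else if i = 2 then L >>> (4 * (x * n + y)) % 16
  else M >>> (4 * (x * n + y)) % 16

theorem mask (f : ℕ → ℕ) (l : List ℕ) (m : ℕ)
    (h : (l.foldr (fun k acc => acc ||| 2 ^ f k) 0).testBit m = true) : ∃ k ∈ l, f k = m := by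
  induction l with
  | nil => simp at h
  | cons a l ih =>
    rw [List.foldr_cons, Nat.testBit_or, Bool.or_eq_true, Nat.testBit_two_pow] at h
    rcases h with h | h
    · obtain ⟨k, h1, h2⟩ := ih h
      exact ⟨k, List.mem_cons_of_mem _ h1, h2⟩
    · exact ⟨a, List.mem_cons_self, of_decide_eq_true h⟩

theorem tbl (n L M : ℕ) [NeZero n] (h : ∀ j < 4, ∀ i < j, (List.range (n * n)).foldr (fun k acc =>
    acc ||| 2 ^ (ent n L M (k / n) (k % n) i % n * n + ent n L M (k / n) (k % n) j % n)) 0 =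
      2 ^ (n * n) - 1) : OA n := by
  refine ⟨Fin n, Fin (n * n), inferInstance, inferInstance,
    fun r i => Fin.ofNat n (ent n L M (r / n) (r % n) i), by simp, by simp [sq],
    fun i j hij a b => ?_⟩
  wlog h' : i < j generalizing i j a b
  · obtain ⟨r, h1, h2⟩ := this j i hij.symm b a ((not_lt.1 h').lt_of_ne hij.symm)
    exact ⟨r, h2, h1⟩
  obtain ⟨k, hk, h1⟩ := mask _ _ (a * n + b) (by
    rw [h j j.2 i h', Nat.testBit_two_pow_sub_one]
    exact decide_eq_true (by nlinarith [a.2, b.2]))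
  have hn := NeZero.pos n
  have h2 := congrArg (· % n) h1
  simp only [Nat.mul_add_mod_self_right, Nat.mod_mod, Nat.mod_eq_of_lt b.2] at h2
  rw [h2, Nat.add_right_cancel_iff, Nat.mul_left_inj hn.ne'] at h1
  exact ⟨⟨k, List.mem_range.1 hk⟩, Fin.ext h1, Fin.ext h2⟩

theorem oa4 : OA 4 := tbl 4 0x1023013232012310 0x0123230110323210 (by decide +kernel)

theorem oa8 : OA 8 := tbl 8 0x7123650423710465620753414750321604152673364217505064713215364027
  0x1657032440736251673024150241567353061742316245077425316025147036 (by decide +kernel)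

theorem oa10 : OA 10 := tbl 10
  0x5728041693203918657486049257319517403268436521780934826790151290758346014356298778563941206971830452
  0x9732165084495670821386093745211824056937217389064574152893600247613859638054179235619274085098432176
  (by decide +kernel)

theorem oa14 : OA 14 := tbl 14
  0xd6543210cba987a79b804c16d2539268a7c3b05d148315796b2ac4d07c204685a19b3d6db1c3574908a251da0b24638c79480d9ca13527b6357cd8b902416a2946bd7a8c130514835ad697b02c0b37249d586ac1c0a26138d4759bbac915027d3648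
  0xd10cba987654326823a74bcd15905c712963abd04847b6018529adc3326a5c074189db2a1594bc63078d1d90483ab52c6706d8c3729a41b5c45d7b2618930ab934d6a150782cab823d5904c67190a712d48c3b5685c9601d37b2a4734b85c0d26a19
  (by decide +kernel)

theorem solve {R : Type*} [CommRing R] (a1 b1 a2 b2 k : ℤ) (hk : IsUnit (k : R))
    (h : a1 * b2 - a2 * b1 ∣ k) (u v : R) :
    ∃ x y : R, a1 * x + b1 * y = u ∧ a2 * x + b2 * y = v := by
  obtain ⟨w, hw⟩ := (isUnit_of_dvd_unit (map_dvd (Int.castRingHom R) h) hk).exists_right_inv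
  simp only [eq_intCast, Int.cast_sub, Int.cast_mul] at hw
  exact ⟨(b2 * u - b1 * v) * w, (a1 * v - a2 * u) * w, by linear_combination u * hw,
    by linear_combination v * hw⟩

theorem odd (u : ℕ) (hu : Odd u) : OA u := by
  have : NeZero u := ⟨hu.pos.ne'⟩
  let A : Fin 4 → ℤ := ![0, 1, 1, 1]
  let B : Fin 4 → ℤ := ![1, 0, 1, 2]
  refine ⟨ZMod u, ZMod u × ZMod u, inferInstance, inferInstance,
    fun r i => A i * r.1 + B i * r.2, by simp, by simp [sq], fun i j hij a b => ?_⟩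
  obtain ⟨x, y, h⟩ := solve (R := ZMod u) (A i) (B i) (A j) (B j) 2
    (by exact_mod_cast (ZMod.isUnit_iff_coprime 2 u).2 (Nat.coprime_two_left.2 hu))
    (by revert i j; decide) a b
  exact ⟨(x, y), h⟩

theorem OA.mul {m n : ℕ} (hm : OA m) (hn : OA n) : OA (m * n) := by
  obtain ⟨α, I, _, _, g, h1, h2, h3⟩ := hm
  obtain ⟨β, J, _, _, g', h1', h2', h3'⟩ := hn
  refine ⟨α × β, I × J, inferInstance, inferInstance, fun r i => (g r.1 i, g' r.2 i),
    by simp [h1, h1'], by simp [h2, h2', mul_pow], fun i j hij a b => ?_⟩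
  obtain ⟨r, h4, h5⟩ := h3 i j hij a.1 b.1
  obtain ⟨r', h4', h5'⟩ := h3' i j hij a.2 b.2
  exact ⟨(r, r'), by simp [h4, h4'], by simp [h5, h5']⟩

def g3 (r : Fin 3 × Fin 3) : Fin 4 → Fin 3 := ![r.1, r.2, r.1 + r.2, r.1 - r.2]

def g4 (r : Fin 15) (i : Fin 4) : Fin 4 :=
  Fin.ofNat 4 (ent 4 0x0123103223013210 0x2013310202311320 ((r + 1) % 4) ((r + 1) / 4) i)

theorem h3 : ∀ i j, i ≠ j → ∀ a b, ∃ r, g3 r i = a ∧ g3 r j = b := by decide +kernel

theorem h4 : ∀ i j, i ≠ j → ∀ a b, a ≠ 0 ∨ b ≠ 0 → ∃ r, g4 r i = a ∧ g4 r j = b := by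
  decide +kernel

theorem wilson (t u : ℕ) (ht : Nat.Coprime 6 t) (hu : u ≤ t) (h : OA u) : OA (3 * t + u) := by
  have : NeZero t := ⟨by rintro rfl; simp at ht⟩
  obtain ⟨β, J, _, _, g, h1, h2, hg⟩ := h
  obtain ⟨ι⟩ : Nonempty (β ↪ ZMod t) := Function.Embedding.nonempty_of_card_le (by simpa [h1])
  classical
  have hc : card {y // y ∉ Set.range ι} = t - u := by
    rw [card_subtype_compl, ZMod.card, ← h1]
    exact congrArg _ (Set.card_range_of_injective ι.injective)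
  let s : ZMod t → β → Fin 4 → (ZMod t × Fin 3) ⊕ β := fun z y v =>
    Fin.cases (Sum.inr y) (fun c => Sum.inl (z, c)) v
  refine ⟨(ZMod t × Fin 3) ⊕ β,
    (ZMod t × {y // y ∉ Set.range ι} × Fin 3 × Fin 3) ⊕ (ZMod t × β × Fin 15) ⊕ J,
    inferInstance, inferInstance, Sum.elim
      (fun r i => Sum.inl (r.1 + (i : ℕ) * r.2.1.1, g3 r.2.2 i))
      (Sum.elim (fun r i => s (r.1 + (i : ℕ) * ι r.2.1) r.2.1 (g4 r.2.2 i))
        fun r i => Sum.inr (g r i)), by simp [h1, mul_comm], ?_, fun i j hij a b => ?_⟩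
  · simp only [card_sum, card_prod, ZMod.card, hc, h1, h2, card_fin]
    obtain ⟨d, rfl⟩ := Nat.exists_eq_add_of_le hu
    rw [Nat.add_sub_cancel_left]
    ring
  rcases a with ⟨x1, c1⟩ | y1 <;> rcases b with ⟨x2, c2⟩ | y2
  · obtain ⟨x, y, e1, e2⟩ := solve (R := ZMod t) 1 (i : ℕ) 1 (j : ℕ) 6
      (by exact_mod_cast (ZMod.isUnit_iff_coprime 6 t).2 ht) (by revert i j; decide) x1 x2
    simp only [Int.cast_one, one_mul, Int.cast_natCast] at e1 e2
    by_cases hy : y ∈ Set.range ι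
    · obtain ⟨y, rfl⟩ := hy
      obtain ⟨r, r1, r2⟩ := h4 i j hij c1.succ c2.succ (Or.inl c1.succ_ne_zero)
      exact ⟨Sum.inr (Sum.inl (x, y, r)), by simp [s, r1, e1], by simp [s, r2, e2]⟩
    · obtain ⟨r, r1, r2⟩ := h3 i j hij c1 c2
      exact ⟨Sum.inl (x, ⟨y, hy⟩, r), by simp [r1, e1], by simp [r2, e2]⟩
  · obtain ⟨r, r1, r2⟩ := h4 i j hij c1.succ 0 (Or.inl c1.succ_ne_zero)
    exact ⟨Sum.inr (Sum.inl (x1 - (i : ℕ) * ι y2, y2, r)), by simp [s, r1], by simp [s, r2]⟩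
  · obtain ⟨r, r1, r2⟩ := h4 i j hij 0 c2.succ (Or.inr c2.succ_ne_zero)
    exact ⟨Sum.inr (Sum.inl (x2 - (j : ℕ) * ι y1, y1, r)), by simp [s, r1], by simp [s, r2]⟩
  · obtain ⟨r, r1, r2⟩ := hg i j hij y1 y2
    exact ⟨Sum.inr (Sum.inr r), by simp [r1], by simp [r2]⟩

theorem all (n : ℕ) (h3 : 3 ≤ n) (h6 : n ≠ 6) : OA n := by
  rcases Nat.even_or_odd n with he | ho
  swap
  · exact odd n ho
  have o3 := odd 3 (by decide)
  by_cases h : n < 16 ∨ n = 30 ∨ n = 32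
  · have : n = 4 ∨ n = 8 ∨ n = 10 ∨ n = 12 ∨ n = 14 ∨ n = 30 ∨ n = 32 := by
      obtain ⟨k, rfl⟩ := he; omega
    rcases this with rfl | rfl | rfl | rfl | rfl | rfl | rfl
    exacts [oa4, oa8, oa10, o3.mul oa4, oa14, o3.mul oa10, oa4.mul oa8]
  obtain ⟨t, h1, h2, h3⟩ : ∃ t, (t % 6 = 1 ∨ t % 6 = 5) ∧ 3 * t ≤ n ∧ n ≤ 4 * t := by
    obtain ⟨k, rfl⟩ := he
    by_cases h5 : (k + k) / 3 % 6 = 5
    · exact ⟨(k + k) / 3, by omega⟩
    by_cases h0 : (k + k) / 3 % 6 = 0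
    · exact ⟨(k + k) / 3 - 1, by omega⟩
    · refine ⟨(k + k) / 3 / 6 * 6 + 1, by omega, by omega, ?_⟩
      by_cases hk : k < 30
      · interval_cases k <;> omega
      · omega
  have := wilson t (n - 3 * t) (by
    rw [Nat.Coprime, Nat.gcd_rec]
    rcases h1 with h | h <;> rw [h] <;> rfl) (by omega)
    (odd _ (Nat.odd_iff.2 (by obtain ⟨k, rfl⟩ := he; omega)))
  rwa [Nat.add_sub_cancel' h2] at this

end Pool.Agent.H.MP_c7a479_co
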